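import Mathlib

namespace Pool.Agent.Results.MP_d2c770_co.Within

variable {V : Type} [Fintype V] [DecidableEq V]

/-- `Win G k n t c`: in the position `c` (`c v = none` means `v` is not yet coloured) with `n` moves
left, and Alice to move iff `t = true`, Alice has a winning strategy. At the end every colour class
must be dominating, i.e. every closed neighbourhood contains all `k` colours. -/
def Win (G : SimpleGraph V) (k : ℕ) : ℕ → Bool → (V → Option (Fin k)) → Prop
  | 0, _, c => ∀ (x : V) (a : Fin k), ∃ y, (y = x ∨ G.Adj x y) ∧ c y = some a
  | n + 1, true, c => ∃ (v : V) (a : Fin k), c v = none ∧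
      Win G k n false (Function.update c v (some a))
  | n + 1, false, c => ∀ (v : V) (a : Fin k), c v = none →
      Win G k n true (Function.update c v (some a))

/-- Alice wins the domatic game with palette of size `k`; `first = true` means Alice starts and
`first = false` means Bob starts. The game lasts `|V|` moves from the uncoloured position. -/
def AliceWins (G : SimpleGraph V) (k : ℕ) (first : Bool) : Prop :=
  Win G k (Fintype.card V) first fun _ => none

open Classical in
/-- The domatic game number: the largest `k` (at most `|V|`) for which Alice wins. -/
noncomputable def gammaG (G : SimpleGraph V) (first : Bool) : ℕ :=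
  Nat.findGreatest (fun k => 1 ≤ k ∧ AliceWins G k first) (Fintype.card V)

lemma card_upd {β : Type} (c : V → Option β) (v : V) (a : β) (n : ℕ) (hv : c v = none)
    (h : (Finset.univ.filter fun x => (c x).isNone).card = n + 1) :
    (Finset.univ.filter fun x => (Function.update c v (some a) x).isNone).card = n := by
  have : (Finset.univ.filter fun x => (Function.update c v (some a) x).isNone) =
      (Finset.univ.filter fun x => (c x).isNone).erase v := by
    ext x
    by_cases e : x = v
    · subst e; simp
    · simp [Function.update_of_ne e, e]
  rw [this, Finset.card_erase_of_mem (by simp [hv]), h]; rfl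

lemma key (G : SimpleGraph V) (k : ℕ) (hk : 1 ≤ k) (e : Fin (k + 1)) :
    ∀ (n : ℕ) (t : Bool) (c' : V → Option (Fin (k + 1))) (c : V → Option (Fin k)) (w : V),
      (Finset.univ.filter fun x => (c' x).isNone).card = n → c w = none → c' w = some e →
      (∀ v, v ≠ w → (c v = none ↔ c' v = none)) →
      (∀ v a, c' v = some (e.succAbove a) → c v = some a) →
      Win G (k + 1) n t c' → Win G k (n + 1) t c := by
  intro n
  induction n with
  | zero =>
    intro t c' c w _ hw _ _ hc h
    have fin : ∀ v a, c v = none → Win G k 0 true (Function.update c v (some a)) := by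
      intro v a hv x b
      obtain ⟨y, hy, ey⟩ := h x (e.succAbove b)
      have := hc _ _ ey
      have hne : y ≠ v := by rintro rfl; simp [hv] at this
      exact ⟨y, hy, by rw [Function.update_of_ne hne, this]⟩
    cases t with
    | true => exact ⟨w, ⟨0, hk⟩, hw, fin w _ hw⟩
    | false => exact fin
  | succ n ih =>
    intro t c' c w hn hw hw' hi hc h
    have same : ∀ (s : Bool) v a' a, c' v = none → (∀ b, a' = e.succAbove b → a = b) →
        Win G (k + 1) n s (Function.update c' v (some a')) →
        Win G k (n + 1) s (Function.update c v (some a)) := by
      intro s v a' a hv hab h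
      have hne : w ≠ v := by rintro rfl; simp [hv] at hw'
      refine ih s _ _ w (card_upd _ _ _ _ hv hn) (by rw [Function.update_of_ne hne, hw])
        (by rw [Function.update_of_ne hne, hw']) ?_ ?_ h
      · intro x hx
        by_cases ex : x = v
        · subst ex; simp
        · simp only [Function.update_of_ne ex]; exact hi x hx
      · intro x b hb
        by_cases ex : x = v
        · subst ex
          simp only [Function.update_self, Option.some.injEq] at hb ⊢
          exact hab b hb
        · simp only [Function.update_of_ne ex] at hb ⊢; exact hc _ _ hb
    cases t with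
    | true =>
      obtain ⟨v, a', hv, h⟩ := h
      have hne : v ≠ w := by rintro rfl; simp [hv] at hw'
      have : ∃ a : Fin k, ∀ b, a' = e.succAbove b → a = b := by
        by_cases hx : ∃ a, a' = e.succAbove a
        · obtain ⟨a, rfl⟩ := hx
          exact ⟨a, fun b hb => Fin.succAbove_right_injective hb⟩
        · exact ⟨⟨0, hk⟩, fun b hb => absurd ⟨b, hb⟩ hx⟩
      obtain ⟨a, ha⟩ := this
      exact ⟨v, a, (hi v hne).2 hv, same _ v a' a hv ha h⟩
    | false =>
      intro v a hv
      by_cases ev : v = w
      · subst ev
        obtain ⟨u, hu⟩ : (Finset.univ.filter fun x => (c' x).isNone).Nonempty :=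
          Finset.card_pos.1 (by omega)
        have hu : c' u = none := by simpa using hu
        have hne : u ≠ v := by rintro rfl; simp [hu] at hw'
        refine ih true _ _ u (card_upd _ _ _ _ hu hn)
          (by rw [Function.update_of_ne hne]; exact (hi u hne).2 hu) (by simp) ?_ ?_ (h u e hu)
        · intro x hx
          rw [Function.update_of_ne hx]
          by_cases ex : x = v
          · subst ex; simp [hw']
          · rw [Function.update_of_ne ex]; exact hi x ex
        · intro x b hb
          by_cases ex : x = u
          · subst ex
            simp only [Function.update_self, Option.some.injEq] at hb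
            exact absurd hb.symm (Fin.succAbove_ne e b)
          · rw [Function.update_of_ne ex] at hb
            have := hc _ _ hb
            have hx : x ≠ v := by rintro rfl; simp [hv] at this
            rw [Function.update_of_ne hx, this]
      · have hv' := (hi v ev).1 hv
        exact same _ v (e.succAbove a) a hv' (fun b hb => Fin.succAbove_right_injective hb)
          (h v _ hv')

lemma swap [Nonempty V] (G : SimpleGraph V) (k : ℕ) (hk : 1 ≤ k) (t : Bool)
    (h : AliceWins G (k + 1) t) : AliceWins G k (!t) := by
  obtain ⟨n, hn⟩ : ∃ n, Fintype.card V = n + 1 :=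
    ⟨_, (Nat.succ_pred_eq_of_pos Fintype.card_pos).symm⟩
  unfold AliceWins at h ⊢
  rw [hn] at h ⊢
  have start : ∀ w e, Win G (k + 1) n (!t) (Function.update (fun _ => none) w (some e)) →
      Win G k (n + 1) (!t) fun _ => none := by
    intro w e h
    refine key G k hk e n _ _ _ w (card_upd _ _ _ _ rfl (by simp [hn])) rfl (by simp) ?_ ?_ h
    · intro v hv; simp [Function.update_of_ne hv]
    · intro v a hb
      by_cases ex : v = w
      · subst ex
        simp only [Function.update_self, Option.some.injEq] at hb
        exact absurd hb.symm (Fin.succAbove_ne e a)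
      · simp [Function.update_of_ne ex] at hb
  cases t with
  | true => obtain ⟨w, e, -, h⟩ := h; exact start w e h
  | false => exact start (Classical.arbitrary V) 0 (h _ _ rfl)

open Classical in
lemma le_succ [Nonempty V] (G : SimpleGraph V) (t : Bool) : gammaG G t ≤ gammaG G (!t) + 1 := by
  by_cases h2 : gammaG G t ≤ 1
  · omega
  · obtain ⟨k, hk⟩ : ∃ k, gammaG G t = k + 1 := ⟨gammaG G t - 1, by omega⟩
    have hb : gammaG G t ≤ Fintype.card V := Nat.findGreatest_le _
    have hs := Nat.findGreatest_of_ne_zero (P := fun k => 1 ≤ k ∧ AliceWins G k t) hk (by omega)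
    have : k ≤ gammaG G (!t) :=
      Nat.le_findGreatest (by omega) ⟨by omega, swap G k (by omega) t hs.2⟩
    omega

theorem result [Nonempty V] (G : SimpleGraph V) :
    |(gammaG G true : ℤ) - (gammaG G false : ℤ)| ≤ 1 := by
  have h1 := le_succ G true
  have h2 := le_succ G false
  simp only [Bool.not_true, Bool.not_false] at h1 h2
  rw [abs_le]; constructor <;> omega

end Pool.Agent.Results.MP_d2c770_co.Within
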